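import Pool.Agent.Helper26.OT.Defs
import Pool.Agent.Helper98.OS.CL

/-!
# OT, block CH: the preimages of the critical points of the reduction lift
-/

set_option autoImplicit false

namespace Pool.Agent.Helper98.OT

open Polynomial Pool.Agent.Helper61.TH Pool.Agent.Helper87.FK Pool.Agent.Helper26.OB Pool.Agent.Helper26.OS
open Pool.Agent.Helper11.OB (rd_eq rd_of_mk rd_wr wr_sum wrh_eq natDegree_wr)
open Pool.Agent.Helper10.OS (wk wk_ne_zero ev_form wrh_smul')
open Pool.Agent.Helper98.OS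

noncomputable section

variable {p : ℕ} [Fact p.Prime] (τ : ℂ →+* PadicAlgCl p)

/-- `y` is primitive and its reduction is proportional to `x` -/
def Lft (x : Fin 2 → kk p) (y : Fin 2 → ℂ) : Prop :=
  (∀ i, ‖τ (y i)‖ ≤ 1) ∧ (∃ i, ‖τ (y i)‖ = 1) ∧ rd τ (y 0) * x 1 = rd τ (y 1) * x 0

theorem rd_eq_zero98 {z : ℂ} (h : ‖τ z‖ < 1) : rd τ z = 0 := by
  rw [rd_eq τ h.le, Ideal.Quotient.eq_zero_iff_mem, mem_mm]
  exact h

theorem rd_mul98 {z w : ℂ} (hz : ‖τ z‖ ≤ 1) (hw : ‖τ w‖ ≤ 1) : rd τ (z * w) = rd τ z * rd τ w := by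
  rw [rd_eq τ hz, rd_eq τ hw, ← map_mul]
  exact rd_of_mk τ _ (by simp)

theorem Lft.ne_zero {x : Fin 2 → kk p} {y : Fin 2 → ℂ} (h : Lft τ x y) : y ≠ 0 := by
  rintro rfl
  obtain ⟨-, ⟨i, hi⟩, -⟩ := h
  rw [Pi.zero_apply, map_zero, norm_zero] at hi
  exact zero_ne_one hi

/-- zeros of the reduction of a binary form lift -/
theorem binLift98 (W : ℂ[X]) (N : ℕ) (hN : W.natDegree ≤ N) (hint : ∀ m, ‖τ (W.coeff m)‖ ≤ 1)
    (hunit : ∃ m, ‖τ (W.coeff m)‖ = 1) (x : Fin 2 → kk p) (hx : x ≠ 0)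
    (h0 : ∑ m ∈ Finset.range (N + 1), rd τ (W.coeff m) * x 0 ^ m * x 1 ^ (N - m) = 0) :
    ∃ y, Lft τ x y ∧ ∑ m ∈ Finset.range (N + 1), W.coeff m * y 0 ^ m * y 1 ^ (N - m) = 0 := by
  have hsum : ∀ r : ℂ, ∑ m ∈ Finset.range (N + 1), W.coeff m * r ^ m * 1 ^ (N - m) = W.eval r := by
    intro r
    rw [eval_eq_sum_range' (Nat.lt_succ_of_le hN)]
    refine Finset.sum_congr rfl fun m _ => ?_
    rw [one_pow, mul_one]
  by_cases hx1 : x 1 = 0
  · have hx0 : x 0 ≠ 0 := by
      intro h0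
      apply hx
      funext i
      fin_cases i
      · exact h0
      · exact hx1
    have hlast : rd τ (W.coeff N) = 0 := by
      rw [Finset.sum_eq_single N] at h0
      · rw [Nat.sub_self, pow_zero, mul_one] at h0
        exact (mul_eq_zero.1 h0).resolve_right (pow_ne_zero _ hx0)
      · intro m hm hne
        rw [Finset.mem_range] at hm
        rw [hx1, zero_pow (by omega), mul_zero]
      · intro hm
        exact absurd (Finset.mem_range.2 (Nat.lt_succ_self _)) hm
    have hlt : ‖τ (W.coeff N)‖ < 1 := by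
      rw [rd_eq τ (hint _), Ideal.Quotient.eq_zero_iff_mem, mem_mm] at hlast
      exact hlast
    by_cases hlc : W.coeff N = 0
    · refine ⟨![1, 0], ⟨?_, ⟨0, ?_⟩, ?_⟩, ?_⟩
      · intro i
        fin_cases i
        · show ‖τ 1‖ ≤ 1
          rw [map_one, norm_one]
        · show ‖τ 0‖ ≤ 1
          rw [map_zero, norm_zero]
          exact zero_le_one
      · show ‖τ 1‖ = 1
        rw [map_one, norm_one]
      · show rd τ 1 * x 1 = rd τ 0 * x 0
        rw [hx1, rd_zero, mul_zero, zero_mul]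
      · refine Finset.sum_eq_zero fun m hm => ?_
        rw [Finset.mem_range] at hm
        by_cases hme : m = N
        · rw [hme, hlc, zero_mul, zero_mul]
        · have : (![1, 0] : Fin 2 → ℂ) 1 = 0 := rfl
          rw [this, zero_pow (by omega), mul_zero]
    · have hnd : W.natDegree = N := le_antisymm hN (le_natDegree_of_ne_zero hlc)
      obtain ⟨r, hr, hr1⟩ := exists_root_inf98 τ W hunit (by rw [leadingCoeff, hnd]; exact hlt)
      have hr0 : r ≠ 0 := by
        rintro rfl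
        rw [map_zero, norm_zero] at hr1
        exact absurd hr1 (not_lt.2 zero_le_one)
      have hri : ‖τ r⁻¹‖ < 1 := by
        rw [map_inv₀, norm_inv]
        exact inv_lt_one_of_one_lt₀ hr1
      refine ⟨![1, r⁻¹], ⟨?_, ⟨0, ?_⟩, ?_⟩, ?_⟩
      · intro i
        fin_cases i
        · show ‖τ 1‖ ≤ 1
          rw [map_one, norm_one]
        · exact hri.le
      · show ‖τ 1‖ = 1
        rw [map_one, norm_one]
      · show rd τ 1 * x 1 = rd τ r⁻¹ * x 0
        rw [hx1, rd_eq_zero98 τ hri, mul_zero, zero_mul]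
      · have h1 : ∑ m ∈ Finset.range (N + 1), W.coeff m * (![1, r⁻¹] : Fin 2 → ℂ) 0 ^ m *
            (![1, r⁻¹] : Fin 2 → ℂ) 1 ^ (N - m) = r⁻¹ ^ N * W.eval r := by
          rw [← hsum, Finset.mul_sum]
          refine Finset.sum_congr rfl fun m hm => ?_
          rw [Finset.mem_range] at hm
          obtain ⟨j, hj⟩ : ∃ j, N = m + j := ⟨N - m, by omega⟩
          show W.coeff m * 1 ^ m * r⁻¹ ^ (N - m) = r⁻¹ ^ N * (W.coeff m * r ^ m * 1 ^ (N - m))
          rw [hj, Nat.add_sub_cancel_left, one_pow, one_pow, mul_one, mul_one, pow_add]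
          have h2 : r⁻¹ ^ m * r ^ m = 1 := by rw [← mul_pow, inv_mul_cancel₀ hr0, one_pow]
          linear_combination -(W.coeff m * r⁻¹ ^ j) * h2
        rw [h1, hr, mul_zero]
  · obtain ⟨z, hz⟩ := Ideal.Quotient.mk_surjective (x 0 / x 1)
    have hlift : ∃ W' : (Oc p)[X], W'.map (algebraMap (Oc p) (PadicAlgCl p)) = W.map τ ∧
        ∀ m, Ideal.Quotient.mk (mm p) (W'.coeff m) = rd τ (W.coeff m) := by
      have h1 : W.map τ ∈ Polynomial.lifts (algebraMap (Oc p) (PadicAlgCl p)) := by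
        rw [Polynomial.lifts_iff_coeff_lifts]
        intro m
        rw [coeff_map]
        exact ⟨⟨τ (W.coeff m), mem_Oc.2 (hint m)⟩, rfl⟩
      obtain ⟨W', hW'⟩ := (Polynomial.mem_lifts _).1 h1
      refine ⟨W', hW', fun m => ?_⟩
      symm
      apply rd_of_mk
      have h2 := congrArg (fun R => Polynomial.coeff R m) hW'
      simp only [coeff_map] at h2
      exact h2
    obtain ⟨W', hW', hW'r⟩ := hlift
    have hev : (W'.map (Ideal.Quotient.mk (mm p))).eval (x 0 / x 1) = 0 := by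
      have hnd : (W'.map (Ideal.Quotient.mk (mm p))).natDegree ≤ N := by
        rw [natDegree_le_iff_coeff_eq_zero]
        intro m hm
        rw [coeff_map, hW'r, coeff_eq_zero_of_natDegree_lt (lt_of_le_of_lt hN hm), rd_zero]
      have h1 : ∑ m ∈ Finset.range (N + 1), rd τ (W.coeff m) * x 0 ^ m * x 1 ^ (N - m) =
          x 1 ^ N * (W'.map (Ideal.Quotient.mk (mm p))).eval (x 0 / x 1) := by
        rw [eval_eq_sum_range' (Nat.lt_succ_of_le hnd), Finset.mul_sum]
        refine Finset.sum_congr rfl fun m hm => ?_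
        rw [Finset.mem_range] at hm
        obtain ⟨j, hj⟩ : ∃ j, N = m + j := ⟨N - m, by omega⟩
        rw [coeff_map, hW'r, hj, Nat.add_sub_cancel_left, div_pow, pow_add]
        field_simp
      rw [h1] at h0
      exact (mul_eq_zero.1 h0).resolve_left (pow_ne_zero _ hx1)
    have hlt : ‖(W.map τ).eval (z : PadicAlgCl p)‖ < 1 := by
      have h1 : (W.map τ).eval (z : PadicAlgCl p) = ((W'.eval z : Oc p) : PadicAlgCl p) := by
        rw [← hW']
        exact eval_map_apply (algebraMap (Oc p) (PadicAlgCl p)) z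
      rw [h1, ← mem_mm, ← Ideal.Quotient.eq_zero_iff_mem]
      have h2 := eval_map_apply (Ideal.Quotient.mk (mm p)) (p := W') z
      rw [hz, hev] at h2
      exact h2.symm
    obtain ⟨r, hr, hr1⟩ := exists_root98 τ W hunit z (mem_Oc.1 z.2) hlt
    have hrint : ‖τ r‖ ≤ 1 := by
      have h3 := PadicAlgCl.isNonarchimedean p (τ r - z) (z : PadicAlgCl p)
      rw [sub_add_cancel] at h3
      exact h3.trans (max_le hr1.le (mem_Oc.1 z.2))
    have hrd : rd τ r = x 0 / x 1 := by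
      rw [rd_eq τ hrint, ← hz, Ideal.Quotient.eq, mem_mm]
      exact hr1
    refine ⟨![r, 1], ⟨?_, ⟨1, ?_⟩, ?_⟩, ?_⟩
    · intro i
      fin_cases i
      · exact hrint
      · show ‖τ 1‖ ≤ 1
        rw [map_one, norm_one]
    · show ‖τ 1‖ = 1
      rw [map_one, norm_one]
    · show rd τ r * x 1 = rd τ 1 * x 0
      rw [hrd, rd_one]
      field_simp
    · exact (hsum r).trans hr

/-- proportional vectors -/
theorem prop98 {F : Type} [Field F] {z v : Fin 2 → F} (hz : z ≠ 0) (h : z 0 * v 1 = z 1 * v 0) :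
    ∃ l : F, v = fun i => l * z i := by
  by_cases h0 : z 0 = 0
  · have h1 : z 1 ≠ 0 := by
      intro h1
      apply hz
      funext i
      fin_cases i
      · exact h0
      · exact h1
    have h2 : v 0 = 0 := by
      rw [h0, zero_mul] at h
      exact (mul_eq_zero.1 h.symm).resolve_left h1
    refine ⟨v 1 / z 1, ?_⟩
    funext i
    fin_cases i
    · show v 0 = v 1 / z 1 * z 0
      rw [h2, h0, mul_zero]
    · show v 1 = v 1 / z 1 * z 1
      field_simp
  · refine ⟨v 0 / z 0, ?_⟩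
    funext i
    fin_cases i
    · show v 0 = v 0 / z 0 * z 0
      field_simp
    · show v 1 = v 0 / z 0 * z 1
      field_simp
      linear_combination h

theorem form_smul98 {F : Type} [Field F] {k : ℕ} {d : Fin k → ℕ} (c : Idx d → F) (b : Fin k) (l : F)
    (z : Fin 2 → F) : ev (form c b) (fun i => l * z i) = fun i => l ^ d b * ev (form c b) z i := by
  funext i
  rw [ev_form, ev_form, Finset.mul_sum]
  refine Finset.sum_congr rfl fun j _ => ?_
  obtain ⟨m, hm⟩ : ∃ m, m = d b - (j : ℕ) := ⟨_, rfl⟩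
  have hl : l ^ d b = l ^ (j : ℕ) * l ^ m := by
    rw [← pow_add]
    congr 1
    have := j.2
    omega
  rw [← hm, hl, mul_pow, mul_pow]
  ring

/-- one step -/
theorem stepLift98 {k : ℕ} {d : Fin k → ℕ} (c : Idx d → ℂ) (hc : ∀ q, ‖τ (c q)‖ ≤ 1) (b : Fin k)
    (hd : 1 ≤ d b) (hgood : ∀ x : Fin 2 → kk p, x ≠ 0 → ev (form (fun q => rd τ (c q)) b) x ≠ 0)
    (x : Fin 2 → kk p) (hx : x ≠ 0) (z : Fin 2 → ℂ)
    (hz : Lft τ (ev (form (fun q => rd τ (c q)) b) x) z) :
    ∃ y, Lft τ x y ∧ z 0 * ev (form c b) y 1 = z 1 * ev (form c b) y 0 := by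
  have := Pool.Agent.Helper46.OB.algClosed_kk p
  obtain ⟨hzi, ⟨i₀, hi₀⟩, hpar⟩ := hz
  set W : ℂ[X] := C (z 1) * pl c b 0 - C (z 0) * pl c b 1 with hW
  have hco : ∀ m, W.coeff m = z 1 * (pl c b 0).coeff m - z 0 * (pl c b 1).coeff m := by
    intro m
    rw [hW, coeff_sub, coeff_C_mul, coeff_C_mul]
  have hpl : ∀ (i : Fin 2) (m : ℕ), ‖τ ((pl c b i).coeff m)‖ ≤ 1 := by
    intro i m
    rw [Pool.Agent.Helper11.OB.coeff_pl]
    split_ifs with h
    · exact hc _
    · rw [map_zero, norm_zero]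
      exact zero_le_one
  have hrdpl : ∀ (i : Fin 2) (m : ℕ), (pl (fun q => rd τ (c q)) b i).coeff m = rd τ ((pl c b i).coeff m) :=
    fun i m => Pool.Agent.Helper11.OB.rd_pl τ c b i m
  have hint1 : ∀ i j m, ‖τ (z i * (pl c b j).coeff m)‖ ≤ 1 := by
    intro i j m
    rw [map_mul, norm_mul]
    exact mul_le_one₀ (hzi i) (norm_nonneg _) (hpl j m)
  have hint : ∀ m, ‖τ (W.coeff m)‖ ≤ 1 := by
    intro m
    rw [hco, map_sub]
    have h3 := PadicAlgCl.isNonarchimedean p (τ (z 1 * (pl c b 0).coeff m)) (-(τ (z 0 * (pl c b 1).coeff m)))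
    rw [← sub_eq_add_neg] at h3
    refine h3.trans (max_le (hint1 _ _ _) ?_)
    show ‖-(τ (z 0 * (pl c b 1).coeff m))‖ ≤ 1
    rw [norm_neg]
    exact hint1 _ _ _
  have hrd : ∀ m, rd τ (W.coeff m) = rd τ (z 1) * (pl (fun q => rd τ (c q)) b 0).coeff m -
      rd τ (z 0) * (pl (fun q => rd τ (c q)) b 1).coeff m := by
    intro m
    rw [hco, Pool.Agent.Helper11.OB.rd_sub τ (hint1 _ _ _) (hint1 _ _ _), rd_mul98 τ (hzi 1) (hpl 0 m),
      rd_mul98 τ (hzi 0) (hpl 1 m), hrdpl, hrdpl]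
  have hevi : ∀ {F : Type} [Field F] (c : Idx d → F) (x : Fin 2 → F) (i : Fin 2), ev (form c b) x i =
      ∑ m ∈ Finset.range (d b + 1), (pl c b i).coeff m * x 0 ^ m * x 1 ^ (d b - m) := by
    intro F _ c x i
    exact Pool.Agent.Helper11.OB.form_eq c b i x
  have hnd : W.natDegree ≤ d b := by
    rw [natDegree_le_iff_coeff_eq_zero]
    intro m hm
    rw [hco, coeff_eq_zero_of_natDegree_lt (lt_of_le_of_lt (Pool.Agent.Helper11.OB.natDegree_pl c b 0) hm),
      coeff_eq_zero_of_natDegree_lt (lt_of_le_of_lt (Pool.Agent.Helper11.OB.natDegree_pl c b 1) hm), mul_zero,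
      mul_zero, sub_zero]
  have hrdz : ∃ i, rd τ (z i) ≠ 0 := ⟨i₀, Pool.Agent.Helper11.OB.rd_ne_zero τ hi₀⟩
  have hunit : ∃ m, ‖τ (W.coeff m)‖ = 1 := by
    by_contra hcon
    push Not at hcon
    have hz0 : ∀ m, rd τ (z 1) * (pl (fun q => rd τ (c q)) b 0).coeff m =
        rd τ (z 0) * (pl (fun q => rd τ (c q)) b 1).coeff m := by
      intro m
      have h1 := hrd m
      rw [rd_eq_zero98 τ (lt_of_le_of_ne (hint m) (hcon m))] at h1
      exact (sub_eq_zero.1 h1.symm)
    -- the forms are proportional at every point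
    have hprop : ∀ x : Fin 2 → kk p, rd τ (z 1) * ev (form (fun q => rd τ (c q)) b) x 0 =
        rd τ (z 0) * ev (form (fun q => rd τ (c q)) b) x 1 := by
      intro x
      rw [hevi, hevi, Finset.mul_sum, Finset.mul_sum]
      refine Finset.sum_congr rfl fun m _ => ?_
      have := hz0 m
      linear_combination (x 0 ^ m * x 1 ^ (d b - m)) * this
    -- every form has a zero
    have hzero : ∀ i : Fin 2, ∃ x : Fin 2 → kk p, x ≠ 0 ∧ ev (form (fun q => rd τ (c q)) b) x i = 0 := by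
      intro i
      by_cases hlc : (pl (fun q => rd τ (c q)) b i).coeff (d b) = 0
      · refine ⟨![1, 0], fun h => one_ne_zero (congrFun h 0), ?_⟩
        rw [hevi]
        refine Finset.sum_eq_zero fun m hm => ?_
        rw [Finset.mem_range] at hm
        by_cases hme : m = d b
        · rw [hme, hlc, zero_mul, zero_mul]
        · have : (![1, 0] : Fin 2 → kk p) 1 = 0 := rfl
          rw [this, zero_pow (by omega), mul_zero]
      · have hdeg : (pl (fun q => rd τ (c q)) b i).degree ≠ 0 := by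
          intro h
          have h1 : (pl (fun q => rd τ (c q)) b i).natDegree = 0 := natDegree_eq_of_degree_eq_some h
          have h2 := le_natDegree_of_ne_zero hlc
          omega
        obtain ⟨r, hr⟩ := IsAlgClosed.exists_root _ hdeg
        refine ⟨![r, 1], fun h => one_ne_zero (congrFun h 1), ?_⟩
        rw [hevi]
        rw [IsRoot.def, eval_eq_sum_range' (Nat.lt_succ_of_le (Pool.Agent.Helper11.OB.natDegree_pl _ b i))] at hr
        rw [← hr]
        refine Finset.sum_congr rfl fun m _ => ?_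
        show _ * r ^ m * 1 ^ (d b - m) = _
        rw [one_pow, mul_one]
    by_cases hz1 : rd τ (z 1) = 0
    · have hz0' : rd τ (z 0) ≠ 0 := by
        obtain ⟨i, hi⟩ := hrdz
        fin_cases i
        · exact hi
        · exact absurd hz1 hi
      obtain ⟨x, hx, h0⟩ := hzero 0
      refine hgood x hx ?_
      funext i
      have h1 := hprop x
      rw [h0, mul_zero] at h1
      fin_cases i
      · exact h0
      · exact (mul_eq_zero.1 h1.symm).resolve_left hz0'
    · obtain ⟨x, hx, h0⟩ := hzero 1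
      refine hgood x hx ?_
      funext i
      have h1 := hprop x
      rw [h0, mul_zero] at h1
      fin_cases i
      · exact (mul_eq_zero.1 h1).resolve_left hz1
      · exact h0
  obtain ⟨y, hy, hsum⟩ := binLift98 τ W (d b) hnd hint hunit x hx (by
    have h1 : ∑ m ∈ Finset.range (d b + 1), rd τ (W.coeff m) * x 0 ^ m * x 1 ^ (d b - m) =
        rd τ (z 1) * ev (form (fun q => rd τ (c q)) b) x 0 - rd τ (z 0) * ev (form (fun q => rd τ (c q)) b) x 1 := by
      rw [hevi, hevi, Finset.mul_sum, Finset.mul_sum, ← Finset.sum_sub_distrib]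
      refine Finset.sum_congr rfl fun m _ => ?_
      rw [hrd]
      ring
    rw [h1, hpar, sub_self])
  refine ⟨y, hy, ?_⟩
  have h1 : ∑ m ∈ Finset.range (d b + 1), W.coeff m * y 0 ^ m * y 1 ^ (d b - m) =
      z 1 * ev (form c b) y 0 - z 0 * ev (form c b) y 1 := by
    rw [hevi, hevi, Finset.mul_sum, Finset.mul_sum, ← Finset.sum_sub_distrib]
    refine Finset.sum_congr rfl fun m _ => ?_
    rw [hco]
    ring
  rw [h1] at hsum
  exact (sub_eq_zero.1 hsum).symm

open Pool.Agent.Helper26.OT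

/-- the orbit of a point does not vanish modulo `p` -/
theorem chain_ne98 {k : ℕ} {d : Fin k → ℕ} (c : ℕ → Idx d → ℂ)
    (hgood : ∀ j a (x : Fin 2 → kk p), x ≠ 0 → ev (form (fun q => rd τ (c j q)) a) x ≠ 0) (π : Fin k → Fin k)
    (N : ℕ) (b : Fin k) (x : Fin 2 → kk p) (hx : x ≠ 0) : chain (fun j q => rd τ (c j q)) π N b x ≠ 0 := by
  induction N generalizing b with
  | zero => exact hx
  | succ N ih => exact hgood N b _ (ih (π b))

/-- lifting along the chain -/
theorem chainStep98 {k : ℕ} {d : Fin k → ℕ} (c : ℕ → Idx d → ℂ)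
    (hc : ∀ j q, ‖τ (c j q)‖ ≤ 1) (hd : ∀ a, 1 ≤ d a)
    (hgood : ∀ j a (x : Fin 2 → kk p), x ≠ 0 → ev (form (fun q => rd τ (c j q)) a) x ≠ 0) (π : Fin k → Fin k)
    (N : ℕ) (b : Fin k) (x : Fin 2 → kk p) (hx : x ≠ 0) (z : Fin 2 → ℂ)
    (hz : Lft τ (chain (fun j q => rd τ (c j q)) π N b x) z) :
    ∃ y, Lft τ x y ∧ z 0 * chain c π N b y 1 = z 1 * chain c π N b y 0 := by
  induction N generalizing b z with
  | zero => exact ⟨z, hz, mul_comm _ _⟩
  | succ N ih =>
    obtain ⟨y', hy', hp'⟩ := stepLift98 τ (c N) (hc N) b (hd b) (hgood N b)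
      (chain (fun j q => rd τ (c j q)) π N (π b) x) (chain_ne98 τ c hgood π N (π b) x hx) z hz
    obtain ⟨y, hy, hpy⟩ := ih (π b) y' hy'
    refine ⟨y, hy, ?_⟩
    obtain ⟨l, hl⟩ := prop98 hy'.ne_zero hpy
    show z 0 * ev (form (c N) b) (chain c π N (π b) y) 1 = z 1 * ev (form (c N) b) (chain c π N (π b) y) 0
    rw [hl, form_smul98]
    show z 0 * (l ^ d b * ev (form (c N) b) y' 1) = z 1 * (l ^ d b * ev (form (c N) b) y' 0)
    linear_combination (l ^ d b) * hp'

end

end Pool.Agent.Helper98.OT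

namespace Pool.Agent.Helper26.OT

open MvPolynomial Pool.Agent.Helper61.TH Pool.Agent.Helper87.FK Pool.Agent.Helper26.OB Pool.Agent.Helper26.OS
open Pool.Agent.Helper98.OT

noncomputable section

/-- **CH**: the preimages of the critical points of the reduction lift. -/
theorem chainLift {p : ℕ} [Fact p.Prime] (τ : ℂ →+* PadicAlgCl p) {k : ℕ} {d : Fin k → ℕ} (c : ℕ → Idx d → ℂ)
    (hc : ∀ j q, ‖τ (c j q)‖ ≤ 1) (hd : ∀ a, 1 ≤ d a) (hp : ∀ a, d a < p)
    (hgood : ∀ j a (x : Fin 2 → kk p), x ≠ 0 → ev (form (fun q => rd τ (c j q)) a) x ≠ 0) (π : Fin k → Fin k)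
    (N : ℕ) (a b : Fin k) (x : Fin 2 → kk p) (hx : x ≠ 0)
    (hw : wrh (fun q => rd τ (c N q)) a (chain (fun j q => rd τ (c j q)) π N b x) = 0) :
    ∃ y : Fin 2 → ℂ, y ≠ 0 ∧ wrh (c N) a (chain c π N b y) = 0 ∧ (y 1 = 0 → pr x = none) ∧
      (y 1 ≠ 0 → ‖τ (y 0 / y 1)‖ ≤ 1 → pr x = some (rd τ (y 0 / y 1))) := by
  have := charP_kk p
  have := Pool.Agent.Helper46.OB.algClosed_kk p
  have hx' := chain_ne98 τ c hgood π N b x hx
  set x' := chain (fun j q => rd τ (c j q)) π N b x with hx'def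
  set W : Polynomial ℂ := wr (c N) a with hWdef
  have hco : ∀ m, (wr (fun q => rd τ (c N q)) a).coeff m = rd τ (W.coeff m) :=
    Pool.Agent.Helper11.OB.rd_wr τ (hc N) a
  set c' : Idx d → Oc p := fun q => ⟨τ (c N q), mem_Oc.2 (hc N q)⟩ with hc'
  have hlift : (wr c' a).map (algebraMap (Oc p) (PadicAlgCl p)) = W.map τ := by
    rw [map_wr, hWdef, map_wr]
    rfl
  have hint : ∀ m, ‖τ (W.coeff m)‖ ≤ 1 := by
    intro m
    rw [← Polynomial.coeff_map, ← hlift, Polynomial.coeff_map]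
    exact mem_Oc.1 ((wr c' a).coeff m).2
  have hunit : ∃ m, ‖τ (W.coeff m)‖ = 1 := by
    by_contra hcon
    push Not at hcon
    refine Pool.Agent.Helper10.OS.wk_ne_zero p (fun q => rd τ (c N q)) a (hd a) (hp a) (hgood N a) ?_
    refine (Pool.Agent.Helper11.OB.wr_sum (fun q => rd τ (c N q)) a).symm.trans ?_
    ext m
    rw [hco, rd_eq_zero98 τ (lt_of_le_of_ne (hint m) (hcon m)), Polynomial.coeff_zero]
  obtain ⟨z, hz, hz0⟩ := binLift98 τ W (2 * d a - 2) (Pool.Agent.Helper11.OB.natDegree_wr (c N) a (hd a)) hint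
    hunit x' hx' (by
      rw [Pool.Agent.Helper11.OB.wrh_eq _ a (hd a)] at hw
      rw [← hw]
      refine Finset.sum_congr rfl fun m _ => ?_
      rw [hco])
  have hwz : wrh (c N) a z = 0 := by
    rw [Pool.Agent.Helper11.OB.wrh_eq _ a (hd a)]
    exact hz0
  obtain ⟨y, hy, hpy⟩ := chainStep98 τ c hc hd hgood π N b x hx z hz
  obtain ⟨l, hl⟩ := prop98 hz.ne_zero hpy
  refine ⟨y, hy.ne_zero, ?_, ?_, ?_⟩
  · rw [hl, Pool.Agent.Helper10.OS.wrh_smul', hwz, mul_zero]
  · intro hy1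
    obtain ⟨hyi, ⟨i, hi⟩, hpar⟩ := hy
    have hi0 : ‖τ (y 0)‖ = 1 := by
      fin_cases i
      · exact hi
      · have h1 : ‖τ (y 1)‖ = 1 := hi
        rw [hy1, map_zero, norm_zero] at h1
        exact absurd h1 zero_ne_one
    rw [hy1, Pool.Agent.Helper11.OB.rd_zero, zero_mul] at hpar
    have hx1 : x 1 = 0 := (mul_eq_zero.1 hpar).resolve_left (Pool.Agent.Helper11.OB.rd_ne_zero τ hi0)
    rw [pr, if_pos hx1]
  · intro hy1 hle
    obtain ⟨hyi, ⟨i, hi⟩, hpar⟩ := hy
    have hτ1 : τ (y 1) ≠ 0 := fun h => hy1 ((map_eq_zero τ).1 h)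
    have hi1 : ‖τ (y 1)‖ = 1 := by
      fin_cases i
      · have h1 : ‖τ (y 0)‖ = 1 := hi
        rw [map_div₀, norm_div, h1, div_le_one (norm_pos_iff.2 hτ1)] at hle
        exact le_antisymm (hyi 1) hle
      · exact hi
    have hr1 := Pool.Agent.Helper11.OB.rd_ne_zero τ hi1
    have hmul : rd τ (y 0) = rd τ (y 0 / y 1) * rd τ (y 1) := by
      rw [← rd_mul98 τ hle (hyi 1), div_mul_cancel₀ _ hy1]
    have hx1 : x 1 ≠ 0 := by
      intro h1
      rw [h1, mul_zero] at hpar
      have h0 : x 0 = 0 := (mul_eq_zero.1 hpar.symm).resolve_left hr1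
      apply hx
      funext i
      fin_cases i
      · exact h0
      · exact h1
    rw [pr, if_neg hx1]
    congr 1
    rw [div_eq_iff hx1]
    rw [hmul] at hpar
    refine mul_left_cancel₀ hr1 ?_
    linear_combination -hpar

end

end Pool.Agent.Helper26.OT
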